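import Pool.Agent.W_MP_908eba_al.Basic

/-!
# Finiteness of the set of translation lattices (MP_908eba_al)

For every realisation `R` with lattice `L` and every other lattice `L'`, the logarithmic
translation parts `tau g` (`g` in `L'`) never span, unless `L' = L` (`Rel.key`, a symmetric/skew
trilinear form argument). The subgroup `F` generated by all lattices acts unipotently in every
realisation (`unip`), is finitely generated (`Rel.F_fg`), so the span `aug` of all `rho f - 1` in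
the product of all the (linearised) realisations is finite dimensional (`aug_fg`). The
determinants of the translation parts are then linearly independent multilinear forms on a finite
dimensional space (`fin_of_test`), so there are only finitely many lattices (`main`).
-/

set_option autoImplicit false

namespace Pool.Agent.W_MP_908eba_al

open Module

namespace Rel

variable {G : Type*} [Group G] {ι : Type*} [Fintype ι]
    {B : (ι → ℝ) →ₗ[ℝ] (ι → ℝ) →ₗ[ℝ] ℝ} {L : Subgroup G} (R : Rel B L)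
include R

theorem fg_of_le (H : Subgroup G) (hH : H ≤ L) : H.FG := by
  apply fg_of_ker H (Submodule.span ℤ (Set.range R.e)) (Submodule.fg_span (Set.finite_range _))
    R.b (fun x hx y _ => R.b_mul_mem (hH hx) y)
  · intro x hx
    exact (R.lat _).1 ⟨x, hH hx, rfl⟩
  · have : kerSub H R.b (fun x hx y _ => R.b_mul_mem (hH hx) y) = ⊥ := by
      rw [eq_bot_iff]
      rintro x ⟨hx, hx'⟩
      exact R.inj x ((R.mem x).1 (hH hx)) hx'
    rw [this]
    exact Subgroup.FG.bot

theorem fgF_aux (F : Subgroup G) (c : ℕ) (hJ : (aug ℤ R.A F).FG)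
    (hc : (aug ℤ R.A F) ^ (c + 1) = ⊥) : ∀ m, m ≤ c → ∀ H ≤ F,
      (∀ h ∈ H, R.A h - 1 ∈ (aug ℤ R.A F) ^ (c + 1 - m)) → H.FG := by
  intro m
  induction m with
  | zero =>
    intro _ H _ h
    apply R.fg_of_le
    intro x hx
    have := h x hx
    rw [Nat.sub_zero, hc, Submodule.mem_bot, sub_eq_zero] at this
    exact (R.mem x).2 this
  | succ m ih =>
    intro hm H hHF h
    obtain ⟨k, hk⟩ : ∃ k, c + 1 - (m + 1) = k ∧ c + 1 - m = k + 1 := ⟨_, rfl, by omega⟩
    rw [hk.1] at h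
    rw [hk.2] at ih
    set J := aug ℤ R.A F with hJdef
    have hmul : ∀ x ∈ H, ∀ y ∈ H, (J ^ (k + 1)).mkQ (R.A (x * y) - 1)
        = (J ^ (k + 1)).mkQ (R.A x - 1) + (J ^ (k + 1)).mkQ (R.A y - 1) := by
      intro x hx y hy
      have h1 : R.A (x * y) - 1 = (R.A x - 1) + (R.A y - 1) + (R.A x - 1) * (R.A y - 1) := by
        rw [map_mul]; simp only [sub_mul, mul_sub, mul_one, one_mul]; abel
      have h2 : (R.A x - 1) * (R.A y - 1) ∈ J ^ (k + 1) := by
        rw [pow_succ]
        exact Submodule.mul_mem_mul (h x hx) (Submodule.subset_span ⟨y, hHF hy, rfl⟩)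
      rw [h1, map_add, map_add, Submodule.mkQ_apply, Submodule.mkQ_apply, Submodule.mkQ_apply,
        (Submodule.Quotient.mk_eq_zero _).2 h2, add_zero]
    apply fg_of_ker H ((J ^ k).map (J ^ (k + 1)).mkQ) ((hJ.pow k).map _)
      (fun x => (J ^ (k + 1)).mkQ (R.A x - 1)) hmul
    · intro x hx
      exact Submodule.mem_map_of_mem (h x hx)
    · apply ih (by omega)
      · intro x hx
        exact hHF hx.1
      · intro x hx
        have h3 : (J ^ (k + 1)).mkQ (R.A x - 1) = 0 := hx.2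
        rw [Submodule.mkQ_apply, Submodule.Quotient.mk_eq_zero] at h3
        exact h3

theorem augZ_fg (F : Subgroup G) : (aug ℤ R.A F).FG := by
  set Λ := Submodule.span ℤ (Set.range R.e) with hΛ
  let Φ : Module.End ℝ (ι → ℝ) →ₗ[ℤ] (ι → (ι → ℝ)) :=
    { toFun := fun T k => T (R.e k)
      map_add' := by intro S T; rfl
      map_smul' := by intro n T; rfl }
  have hΦ : Function.Injective Φ := by
    intro S T h
    apply R.e.ext
    intro k
    exact congrFun h k
  have hAΛ : ∀ g, ∀ v ∈ Λ, R.A g v ∈ Λ := by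
    intro g v hv
    obtain ⟨k, hk, rfl⟩ := (R.lat v).2 hv
    rw [← R.conj g hk]
    exact (R.lat _).1 ⟨_, R.normal.conj_mem k hk g, rfl⟩
  have hfgΛ : (Submodule.pi Set.univ (fun _ : ι => Λ)).FG :=
    Submodule.fg_pi (fun _ => Submodule.fg_span (Set.finite_range _))
  have hle : (aug ℤ R.A F).map Φ ≤ Submodule.pi Set.univ (fun _ : ι => Λ) := by
    unfold aug
    rw [Submodule.map_span, Submodule.span_le]
    rintro _ ⟨_, ⟨f, _, rfl⟩, rfl⟩
    intro k _
    show (R.A f - 1) (R.e k) ∈ Λ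
    have h1 : R.e k ∈ Λ := Submodule.subset_span ⟨k, rfl⟩
    exact Λ.sub_mem (hAΛ f _ h1) h1
  have h1 : ((aug ℤ R.A F).map Φ).FG := by
    have : IsNoetherian ℤ (Submodule.pi Set.univ (fun _ : ι => Λ)) :=
      isNoetherian_of_fg_of_noetherian _ hfgΛ
    exact (isNoetherian_submodule (N := Submodule.pi Set.univ (fun _ : ι => Λ))).1 this _ hle
  exact Submodule.fg_of_fg_map_injective Φ hΦ h1

open scoped Pointwise in
theorem F_fg (𝓛 : Set (Subgroup G)) (h𝓛 : ∀ L' ∈ 𝓛, Nonempty (Rel B L')) : (sSup 𝓛).FG := by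
  have hn : ∀ L' ∈ 𝓛, L'.Normal := by
    intro L' h
    obtain ⟨R'⟩ := h𝓛 L' h
    exact R'.normal
  have hcomm : ∀ L' ∈ 𝓛, ∀ g ∈ L', ∀ h ∈ L', g * h = h * g := by
    intro L' h g hg k hk
    obtain ⟨R'⟩ := h𝓛 L' h
    exact R'.comm hg hk
  have hun := unip R.A 𝓛 hn (by
    intro L' hL' a ha b hb c hc v
    exact R.quad L' (hn L' hL') (hcomm L' hL') ha hb _)
  have hpow : (aug ℤ R.A (sSup 𝓛)) ^ (finrank ℝ (ι → ℝ) + 1) = ⊥ := by
    unfold aug
    rw [Submodule.span_pow, Submodule.span_eq_bot]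
    exact hun
  apply R.fgF_aux (sSup 𝓛) _ (R.augZ_fg _) hpow (finrank ℝ (ι → ℝ)) le_rfl _ le_rfl
  intro h hh
  have : finrank ℝ (ι → ℝ) + 1 - finrank ℝ (ι → ℝ) = 1 := by omega
  rw [this, pow_one]
  exact Submodule.subset_span ⟨h, hh, rfl⟩

/-- The linearised affine representation. -/
def rho : G →* Module.End ℝ ((ι → ℝ) × ℝ) where
  toFun g :=
    { toFun := fun x => (R.A g x.1 + x.2 • R.b g, x.2)
      map_add' := by
        intro x y
        simp only [Prod.fst_add, Prod.snd_add, map_add, add_smul, Prod.mk_add_mk, Prod.mk.injEq,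
          and_true]
        abel
      map_smul' := by
        intro c x
        simp [smul_smul] }
  map_one' := by
    ext x <;> simp [R.b_one]
  map_mul' := by
    intro g h
    apply LinearMap.ext
    intro x
    simp only [map_mul, R.cocycle, LinearMap.coe_mk, AddHom.coe_mk, Module.End.mul_apply,
      map_add, map_smul, smul_add, Prod.mk.injEq, and_true]
    abel

theorem rho_apply (g : G) (x : (ι → ℝ) × ℝ) : R.rho g x = (R.A g x.1 + x.2 • R.b g, x.2) := rfl

theorem rho_sub_apply (g : G) (x : (ι → ℝ) × ℝ) :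
    (R.rho g - 1) x = ((R.A g - 1) x.1 + x.2 • R.b g, 0) := by
  rw [LinearMap.sub_apply, rho_apply]
  ext <;> simp
  ring

end Rel

variable {G : Type*} [Group G] {ι : Type*} [Fintype ι] [DecidableEq ι]
    (B : (ι → ℝ) →ₗ[ℝ] (ι → ℝ) →ₗ[ℝ] ℝ)

omit [DecidableEq ι] in
theorem fin_aux {E : Type*} [AddCommGroup E] [Module ℝ E] [Module.Finite ℝ E] {κ : Type*}
    (f : κ → MultilinearMap ℝ (fun _ : ι => E) ℝ) (h : LinearIndependent ℝ f) : Finite κ :=
  h.finite

/-- A determinantal two-families argument: finitely many indices. -/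
theorem fin_of_test {E : Type*} [AddCommGroup E] [Module ℝ E] [Module.Finite ℝ E] {κ : Type*}
    (β : κ → E →ₗ[ℝ] (ι → ℝ)) (w : κ → ι → E)
    (hdiag : ∀ j, (Pi.basisFun ℝ ι).det (fun k => β j (w j k)) ≠ 0)
    (hoff : ∀ i j, i ≠ j → (Pi.basisFun ℝ ι).det (fun k => β i (w j k)) = 0) : Finite κ := by
  let D : MultilinearMap ℝ (fun _ : ι => (ι → ℝ)) ℝ := (Pi.basisFun ℝ ι).det.toMultilinearMap
  let f : κ → MultilinearMap ℝ (fun _ : ι => E) ℝ := fun i =>
    D.compLinearMap (fun _ => β i)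
  have hval : ∀ i j, f i (w j) = (Pi.basisFun ℝ ι).det (fun k => β i (w j k)) := by
    intro i j
    rfl
  have hli : LinearIndependent ℝ f := by
    rw [linearIndependent_iff']
    intro t c hsum j hj
    have h1 := congrArg (fun g : MultilinearMap ℝ (fun _ : ι => E) ℝ => g (w j)) hsum
    simp only [sum_apply, smul_apply, zero_apply,
      smul_eq_mul] at h1
    rw [Finset.sum_eq_single j] at h1
    · exact (mul_eq_zero.1 h1).resolve_right (by rw [hval]; exact hdiag j)
    · intro i _ hij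
      rw [hval, hoff i j hij, mul_zero]
    · intro h; exact absurd hj h
  exact fin_aux f hli

open scoped Pointwise in
theorem main (hsymm : ∀ v w, B v w = B w v) (hnd : ∀ v, (∀ w, B v w = 0) → v = 0)
    (𝓛 : Set (Subgroup G)) (h𝓛 : ∀ L' ∈ 𝓛, Nonempty (Rel B L')) : 𝓛.Finite := by
  classical
  rcases 𝓛.eq_empty_or_nonempty with h0 | ⟨L0, hL0⟩
  · rw [h0]; exact Set.finite_empty
  obtain ⟨R0⟩ := h𝓛 L0 hL0
  have hFfg : (sSup 𝓛).FG := R0.F_fg 𝓛 h𝓛
  have R : ∀ i : 𝓛, Rel B (i : Subgroup G) := fun i => (h𝓛 i i.2).some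
  have hn : ∀ L' ∈ 𝓛, L'.Normal := fun L' h => (R ⟨L', h⟩).normal
  have hcomm : ∀ L' ∈ 𝓛, ∀ g ∈ L', ∀ h ∈ L', g * h = h * g :=
    fun L' h g hg k hk => (R ⟨L', h⟩).comm hg hk
  -- the product algebra
  let 𝔸 := (i : 𝓛) → Module.End ℝ ((ι → ℝ) × ℝ)
  let ρ : G →* 𝔸 := MonoidHom.pi (fun i => (R i).rho)
  set F := sSup 𝓛 with hF
  set N := finrank ℝ ((ι → ℝ) × ℝ) with hN
  have hpow : (aug ℝ ρ F) ^ (N + 1) = ⊥ := by
    unfold aug
    rw [Submodule.span_pow, Submodule.span_eq_bot]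
    intro x hx
    funext i
    have hun := unip (R i).rho 𝓛 hn (by
      intro L' hL' a ha b hb c hc v
      rw [Rel.rho_sub_apply, Rel.rho_sub_apply, Rel.rho_sub_apply]
      simp only [zero_smul, add_zero]
      rw [(R i).quad L' (hn L' hL') (hcomm L' hL') ha hb]
      rfl)
    apply hun
    have h1 : x i ∈ (Pi.evalMonoidHom (fun _ : 𝓛 => Module.End ℝ ((ι → ℝ) × ℝ)) i) ''
        (({x | ∃ f ∈ F, x = ρ f - 1} : Set 𝔸) ^ (N + 1)) := ⟨x, hx, rfl⟩
    rw [Set.image_pow] at h1
    refine Set.pow_subset_pow_left ?_ h1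
    rintro _ ⟨_, ⟨f, hf, rfl⟩, rfl⟩
    exact ⟨f, hf, rfl⟩
  have hEfg : (aug ℝ ρ F).FG := aug_fg ρ F hFfg N hpow
  set E := aug ℝ ρ F with hE
  have hfin : Module.Finite ℝ E := Module.Finite.iff_fg.2 hEfg
  -- evaluation maps
  let β : (i : 𝓛) → 𝔸 →ₗ[ℝ] (ι → ℝ) := fun i =>
    (LinearMap.fst ℝ (ι → ℝ) ℝ).comp
      ((LinearMap.applyₗ (R := ℝ) ((0 : ι → ℝ), (1 : ℝ))).comp
        (LinearMap.proj (R := ℝ) (φ := fun _ : 𝓛 => Module.End ℝ ((ι → ℝ) × ℝ)) i))
  have hβ : ∀ i g, β i (ρ g - 1) = (R i).b g := by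
    intro i g
    show ((((R i).rho g - 1) ((0 : ι → ℝ), (1 : ℝ))).1) = _
    rw [Rel.rho_sub_apply]
    simp
  let u : G → 𝔸 := fun g => (2 : ℝ) • (ρ g - 1) - (1 / 2 : ℝ) • (ρ (g ^ 2) - 1)
  have huE : ∀ g ∈ F, u g ∈ E := by
    intro g hg
    refine E.sub_mem (E.smul_mem _ (Submodule.subset_span ⟨g, hg, rfl⟩))
      (E.smul_mem _ (Submodule.subset_span ⟨g ^ 2, F.pow_mem hg 2, rfl⟩))
  have hβu : ∀ i g, β i (u g) = (R i).tau g := by
    intro i g
    simp only [u, map_sub, map_smul]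
    have h1 := hβ i g
    have h2 := hβ i (g ^ 2)
    rw [map_sub] at h1 h2
    rw [h1, h2]
    rfl
  -- test vectors
  have htest : ∀ j : 𝓛, ∃ s : ι → G, (∀ k, s k ∈ (j : Subgroup G)) ∧
      ∀ k, (R j).b (s k) = (R j).e k := by
    intro j
    have : ∀ k, ∃ g ∈ (j : Subgroup G), (R j).b g = (R j).e k :=
      fun k => ((R j).lat _).2 (Submodule.subset_span ⟨k, rfl⟩)
    choose s hs hs' using this
    exact ⟨s, hs, hs'⟩
  choose s hs hsb using htest
  have hjF : ∀ j : 𝓛, (j : Subgroup G) ≤ F := fun j => le_sSup j.2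
  let w : (j : 𝓛) → ι → E := fun j k => ⟨u (s j k), huE _ (hjF j (hs j k))⟩
  let β' : (i : 𝓛) → E →ₗ[ℝ] (ι → ℝ) := fun i => (β i).comp E.subtype
  have hval : ∀ i j k, β' i (w j k) = (R i).tau (s j k) := by
    intro i j k
    show β i (u (s j k)) = _
    rw [hβu]
  have hfinite : Finite 𝓛 := by
    apply fin_of_test β' w
    · intro j
      simp only [hval]
      have : (fun k => (R j).tau (s j k)) = (R j).e := by
        funext k
        rw [(R j).tau_mem (hs j k), hsb]
      rw [this]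
      exact (Module.Basis.isUnit_det (Pi.basisFun ℝ ι) (R j).e).ne_zero
    · intro i j hij
      simp only [hval]
      by_contra hne
      apply hij
      have hb := (Module.Basis.is_basis_iff_det (Pi.basisFun ℝ ι)
        (v := fun k => (R i).tau (s j k))).2 (isUnit_iff_ne_zero.2 hne)
      have hle := (R i).key hsymm hnd (j : Subgroup G) (hn _ j.2) (hcomm _ j.2) (s j) (hs j) hb.2
      exact (Subtype.ext ((R i).eq_of_le (R j) hle)).symm
  exact Set.toFinite 𝓛

end Pool.Agent.W_MP_908eba_al
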