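import Mathlib

set_option autoImplicit false

namespace Pool.Agent.W_MP_908eba_al

open Module

section groups

variable {G : Type*} [Group G]

/-- The kernel of a map additive on a subgroup. -/
def kerSub (H : Subgroup G) {M : Type*} [AddCommGroup M] (ψ : G → M)
    (hmul : ∀ x ∈ H, ∀ y ∈ H, ψ (x * y) = ψ x + ψ y) : Subgroup G where
  carrier := {x | x ∈ H ∧ ψ x = 0}
  one_mem' := by
    refine ⟨H.one_mem, ?_⟩
    have := hmul 1 H.one_mem 1 H.one_mem
    simpa using this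
  mul_mem' := by
    rintro x y ⟨hx, hx'⟩ ⟨hy, hy'⟩
    exact ⟨H.mul_mem hx hy, by rw [hmul x hx y hy, hx', hy', add_zero]⟩
  inv_mem' := by
    rintro x ⟨hx, hx'⟩
    refine ⟨H.inv_mem hx, ?_⟩
    have h1 := hmul 1 H.one_mem 1 H.one_mem
    have h2 := hmul x hx x⁻¹ (H.inv_mem hx)
    simp only [mul_one, mul_inv_cancel] at h1 h2
    have h3 : ψ 1 = 0 := by simpa using h1
    rw [h3, hx', zero_add] at h2
    exact h2.symm

theorem fg_of_ker (H : Subgroup G) {M : Type*} [AddCommGroup M]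
    (N : Submodule ℤ M) (hN : N.FG) (ψ : G → M)
    (hmul : ∀ x ∈ H, ∀ y ∈ H, ψ (x * y) = ψ x + ψ y)
    (hmem : ∀ x ∈ H, ψ x ∈ N)
    (hK : (kerSub H ψ hmul).FG) : H.FG := by
  have h1 : ψ 1 = 0 := by
    have := hmul 1 H.one_mem 1 H.one_mem
    simpa using this
  have hinv : ∀ x ∈ H, ψ x⁻¹ = - ψ x := by
    intro x hx
    have h2 := hmul x hx x⁻¹ (H.inv_mem hx)
    rw [mul_inv_cancel, h1] at h2
    exact (neg_eq_of_add_eq_zero_right h2.symm).symm
  -- image of a subgroup as an additive subgroup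
  let im : (C : Subgroup G) → C ≤ H → AddSubgroup M := fun C hC =>
    { carrier := {y | ∃ x ∈ C, ψ x = y}
      zero_mem' := ⟨1, C.one_mem, h1⟩
      add_mem' := by
        rintro _ _ ⟨x, hx, rfl⟩ ⟨y, hy, rfl⟩
        exact ⟨x * y, C.mul_mem hx hy, hmul x (hC hx) y (hC hy)⟩
      neg_mem' := by
        rintro _ ⟨x, hx, rfl⟩
        exact ⟨x⁻¹, C.inv_mem hx, hinv x (hC hx)⟩ }
  let P : Submodule ℤ M := AddSubgroup.toIntSubmodule (im H le_rfl)
  have hPN : P ≤ N := by
    rintro _ ⟨x, hx, rfl⟩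
    exact hmem x hx
  have hP : P.FG := by
    have : IsNoetherian ℤ N := isNoetherian_of_fg_of_noetherian N hN
    have := (isNoetherian_submodule (N := N)).1 this P hPN
    exact this
  obtain ⟨T, hT⟩ := hP
  have hTP : ∀ t ∈ T, ∃ x ∈ H, ψ x = t := by
    intro t ht
    have : t ∈ P := by rw [← hT]; exact Submodule.subset_span ht
    exact this
  choose! s hsH hsψ using hTP
  let C : Subgroup G := Subgroup.closure (s '' (T : Set M))
  have hC : C ≤ H := by
    rw [Subgroup.closure_le]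
    rintro _ ⟨t, ht, rfl⟩
    exact hsH t ht
  have hPC : P ≤ AddSubgroup.toIntSubmodule (im C hC) := by
    rw [← hT, Submodule.span_le]
    intro t ht
    exact ⟨s t, Subgroup.subset_closure ⟨t, ht, rfl⟩, hsψ t ht⟩
  have hCfg : C.FG := by
    classical
    refine ⟨T.image s, ?_⟩
    simp [C]
  have hHeq : H = C ⊔ kerSub H ψ hmul := by
    apply le_antisymm
    · intro x hx
      obtain ⟨y, hy, hyx⟩ := hPC (show ψ x ∈ P from ⟨x, hx, rfl⟩)
      have : y⁻¹ * x ∈ kerSub H ψ hmul := by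
        refine ⟨H.mul_mem (H.inv_mem (hC hy)) hx, ?_⟩
        rw [hmul _ (H.inv_mem (hC hy)) _ hx, hinv y (hC hy), hyx, neg_add_cancel]
      have h3 : x = y * (y⁻¹ * x) := by group
      rw [h3]
      exact Subgroup.mul_mem_sup hy this
    · exact sup_le hC (fun x hx => hx.1)
  rw [hHeq]
  exact hCfg.sup hK

end groups

section unip

variable {G : Type*} [Group G] {V : Type*} [AddCommGroup V] [Module ℝ V]

/-- The ascending chain of vectors killed by products of `k` elements `ρ f - 1`. -/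
def chain (ρ : G →* Module.End ℝ V) (F : Subgroup G) : ℕ → Submodule ℝ V
  | 0 => ⊥
  | (k + 1) => ⨅ f : F, (chain ρ F k).comap (ρ f - 1)

theorem mem_chain_succ (ρ : G →* Module.End ℝ V) (F : Subgroup G) (k : ℕ) (v : V) :
    v ∈ chain ρ F (k + 1) ↔ ∀ f ∈ F, (ρ f - 1) v ∈ chain ρ F k := by
  simp [chain, Submodule.mem_iInf]

theorem chain_inv (ρ : G →* Module.End ℝ V) (F : Subgroup G) (hF : F.Normal) (k : ℕ) :
    ∀ (g : G) (v : V), v ∈ chain ρ F k → ρ g v ∈ chain ρ F k := by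
  induction k with
  | zero => intro g v hv; simp [chain] at hv ⊢; simp [hv]
  | succ k ih =>
    intro g v hv
    rw [mem_chain_succ] at hv ⊢
    intro f hf
    have h1 := ih g _ (hv (g⁻¹ * f * g) (by simpa using hF.conj_mem f hf g⁻¹))
    have h2 : (ρ f - 1) (ρ g v) = ρ g ((ρ (g⁻¹ * f * g) - 1) v) := by
      have : ρ g ∘ₗ ρ (g⁻¹ * f * g) = ρ f ∘ₗ ρ g := by
        rw [← Module.End.mul_eq_comp, ← Module.End.mul_eq_comp, ← map_mul, ← map_mul]
        congr 1
        group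
      have h3 := LinearMap.congr_fun this v
      simp only [LinearMap.comp_apply] at h3
      simp [h3]
    rw [h2]
    exact h1

theorem chain_mono (ρ : G →* Module.End ℝ V) (F : Subgroup G) (k : ℕ) :
    chain ρ F k ≤ chain ρ F (k + 1) := by
  induction k with
  | zero => simp [chain]
  | succ k ih =>
    intro v hv
    rw [mem_chain_succ] at hv ⊢
    intro f hf
    exact ih (hv f hf)

variable [FiniteDimensional ℝ V]

theorem chain_strict (ρ : G →* Module.End ℝ V) (𝓛 : Set (Subgroup G))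
    (hn : ∀ L ∈ 𝓛, L.Normal)
    (h3 : ∀ L ∈ 𝓛, ∀ a ∈ L, ∀ b ∈ L, ∀ c ∈ L, ∀ v, (ρ a - 1) ((ρ b - 1) ((ρ c - 1) v)) = 0)
    (hF : (sSup 𝓛).Normal) (k : ℕ)
    (heq : chain ρ (sSup 𝓛) (k + 1) ≤ chain ρ (sSup 𝓛) k) : chain ρ (sSup 𝓛) k = ⊤ := by
  by_contra hne
  set U := chain ρ (sSup 𝓛) k with hU
  have hUinv := chain_inv ρ (sSup 𝓛) hF k
  rw [← hU] at hUinv
  -- minimal invariant submodule strictly above U
  let S : Set (Submodule ℝ V) := {P | U < P ∧ ∀ g v, v ∈ P → ρ g v ∈ P}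
  have hS : S.Nonempty := ⟨⊤, lt_top_iff_ne_top.2 hne, fun _ _ _ => trivial⟩
  obtain ⟨P, ⟨hUP, hPinv⟩, hmin⟩ := (wellFounded_lt (α := Submodule ℝ V)).has_min S hS
  have hfix : ∀ L ∈ 𝓛, ∀ v ∈ P, ∀ g ∈ L, (ρ g - 1) v ∈ U := by
    intro L hL
    let Q : Submodule ℝ V := P ⊓ ⨅ g : L, U.comap (ρ g - 1)
    have hQmem : ∀ v, v ∈ Q ↔ v ∈ P ∧ ∀ g ∈ L, (ρ g - 1) v ∈ U := by
      intro v
      simp [Q, Submodule.mem_iInf]
    have hUQ : U ≤ Q := by
      intro v hv
      rw [hQmem]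
      refine ⟨hUP.le hv, fun g _ => ?_⟩
      have := U.sub_mem (hUinv g v hv) hv
      simpa using this
    have hQinv : ∀ g v, v ∈ Q → ρ g v ∈ Q := by
      intro g v hv
      rw [hQmem] at hv ⊢
      refine ⟨hPinv g v hv.1, fun f hf => ?_⟩
      have hN := hn L hL
      have h1 := hUinv g _ (hv.2 (g⁻¹ * f * g) (by simpa using hN.conj_mem f hf g⁻¹))
      have h2 : (ρ f - 1) (ρ g v) = ρ g ((ρ (g⁻¹ * f * g) - 1) v) := by
        have : ρ g ∘ₗ ρ (g⁻¹ * f * g) = ρ f ∘ₗ ρ g := by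
          rw [← Module.End.mul_eq_comp, ← Module.End.mul_eq_comp, ← map_mul, ← map_mul]
          congr 1
          group
        have h3 := LinearMap.congr_fun this v
        simp only [LinearMap.comp_apply] at h3
        simp [h3]
      rw [h2]
      exact h1
    by_cases hQU : Q = U
    · exfalso
      have hdif : ∀ v ∈ P, ∀ g, (ρ g - 1) v ∈ P := by
        intro v hv g
        have := P.sub_mem (hPinv g v hv) hv
        simpa using this
      have key : ∀ v ∈ P, (∀ g ∈ L, (ρ g - 1) v ∈ U) → v ∈ U := by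
        intro v hv h
        rw [← hQU, hQmem]
        exact ⟨hv, h⟩
      have : P ≤ U := by
        intro v hv
        apply key v hv
        intro c hc
        apply key _ (hdif v hv c)
        intro b hb
        apply key _ (hdif _ (hdif v hv c) b)
        intro a ha
        rw [h3 L hL a ha b hb c hc v]
        exact U.zero_mem
      exact absurd (lt_of_lt_of_le hUP this) (lt_irrefl _)
    · have hlt : U < Q := lt_of_le_of_ne hUQ (Ne.symm hQU)
      have hnot := hmin Q ⟨hlt, hQinv⟩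
      have hle : Q ≤ P := inf_le_left
      have hQP : Q = P := by
        by_contra hne'
        exact hnot (lt_of_le_of_ne hle hne')
      intro v hv g hg
      rw [← hQP] at hv
      exact ((hQmem v).1 hv).2 g hg
  -- stabiliser-type subgroup
  let St : Subgroup G :=
    { carrier := {g | ∀ v ∈ P, (ρ g - 1) v ∈ U}
      one_mem' := by intro v _; simp
      mul_mem' := by
        intro a b ha hb v hv
        have h1 : (ρ (a * b) - 1) v = (ρ a - 1) (ρ b v) + (ρ b - 1) v := by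
          simp [map_mul]
        rw [h1]
        exact U.add_mem (ha _ (hPinv b v hv)) (hb v hv)
      inv_mem' := by
        intro a ha v hv
        have h1 : (ρ a⁻¹ - 1) v = - ρ a⁻¹ ((ρ a - 1) v) := by
          have : ρ a⁻¹ (ρ a v) = v := by
            rw [← Module.End.mul_apply, ← map_mul]; simp
          simp [this]
        rw [h1]
        exact U.neg_mem (hUinv _ _ (ha v hv)) }
  have hFSt : sSup 𝓛 ≤ St := by
    apply sSup_le
    intro L hL g hg v hv
    exact hfix L hL v hv g hg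
  have : P ≤ U := by
    intro v hv
    apply heq
    rw [mem_chain_succ]
    intro f hf
    exact hFSt hf v hv
  exact absurd (lt_of_lt_of_le hUP this) (lt_irrefl _)

theorem chain_top (ρ : G →* Module.End ℝ V) (𝓛 : Set (Subgroup G))
    (hn : ∀ L ∈ 𝓛, L.Normal)
    (h3 : ∀ L ∈ 𝓛, ∀ a ∈ L, ∀ b ∈ L, ∀ c ∈ L, ∀ v, (ρ a - 1) ((ρ b - 1) ((ρ c - 1) v)) = 0)
    (hF : (sSup 𝓛).Normal) : chain ρ (sSup 𝓛) (finrank ℝ V + 1) = ⊤ := by
  have h : ∀ k, chain ρ (sSup 𝓛) k = ⊤ ∨ k ≤ finrank ℝ (chain ρ (sSup 𝓛) k) := by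
    intro k
    induction k with
    | zero => right; simp
    | succ k ih =>
      rcases ih with ih | ih
      · left
        exact top_le_iff.1 (ih ▸ chain_mono ρ (sSup 𝓛) k)
      · by_cases hle : chain ρ (sSup 𝓛) (k + 1) ≤ chain ρ (sSup 𝓛) k
        · left
          have := chain_strict ρ 𝓛 hn h3 hF k hle
          exact top_le_iff.1 (this ▸ chain_mono ρ (sSup 𝓛) k)
        · right
          have hlt : chain ρ (sSup 𝓛) k < chain ρ (sSup 𝓛) (k + 1) :=
            lt_of_le_not_ge (chain_mono ρ (sSup 𝓛) k) hle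
          have := Submodule.finrank_lt_finrank_of_lt hlt
          omega
  rcases h (finrank ℝ V + 1) with h | h
  · exact h
  · exfalso
    have := Submodule.finrank_le (chain ρ (sSup 𝓛) (finrank ℝ V + 1))
    omega

theorem sSup_normal (𝓛 : Set (Subgroup G)) (hn : ∀ L ∈ 𝓛, L.Normal) : (sSup 𝓛).Normal := by
  constructor
  intro n hn' g
  have : sSup 𝓛 ≤ (sSup 𝓛).comap (MulAut.conj g).toMonoidHom := by
    apply sSup_le
    intro L hL x hx
    rw [Subgroup.mem_comap]
    exact (le_sSup hL) ((hn L hL).conj_mem x hx g)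
  exact this hn'

open scoped Pointwise in
theorem unip (ρ : G →* Module.End ℝ V) (𝓛 : Set (Subgroup G))
    (hn : ∀ L ∈ 𝓛, L.Normal)
    (h3 : ∀ L ∈ 𝓛, ∀ a ∈ L, ∀ b ∈ L, ∀ c ∈ L, ∀ v, (ρ a - 1) ((ρ b - 1) ((ρ c - 1) v)) = 0) :
    ∀ x ∈ ({x | ∃ f ∈ sSup 𝓛, x = ρ f - 1} : Set (Module.End ℝ V)) ^ (finrank ℝ V + 1), x = 0 := by
  have hF := sSup_normal 𝓛 hn
  have htop := chain_top ρ 𝓛 hn h3 hF
  have key : ∀ k, ∀ x ∈ ({x | ∃ f ∈ sSup 𝓛, x = ρ f - 1} : Set (Module.End ℝ V)) ^ k,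
      ∀ v ∈ chain ρ (sSup 𝓛) k, x v = 0 := by
    intro k
    induction k with
    | zero =>
      intro x _ v hv
      simp [chain] at hv
      simp [hv]
    | succ k ih =>
      intro x hx v hv
      rw [pow_succ] at hx
      obtain ⟨y, hy, z, ⟨f, hf, rfl⟩, rfl⟩ := hx
      rw [mem_chain_succ] at hv
      exact ih y hy _ (hv f hf)
  intro x hx
  ext v
  rw [key _ x hx v (by rw [htop]; trivial)]
  rfl

end unip

section fin

variable {G : Type*} [Group G] {K : Type*} [CommRing K] {𝔸 : Type*} [Ring 𝔸] [Algebra K 𝔸]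

/-- augmentation-type submodule -/
def aug (K : Type*) [CommRing K] {𝔸 : Type*} [Ring 𝔸] [Algebra K 𝔸]
    (ρ : G →* 𝔸) (F : Subgroup G) : Submodule K 𝔸 :=
  Submodule.span K {x | ∃ f ∈ F, x = ρ f - 1}

theorem aug_mul_le (ρ : G →* 𝔸) (F : Subgroup G) : aug K ρ F * aug K ρ F ≤ aug K ρ F := by
  unfold aug
  rw [Submodule.span_mul_span, Submodule.span_le]
  rintro _ ⟨_, ⟨f, hf, rfl⟩, _, ⟨g, hg, rfl⟩, rfl⟩
  have h : (fun x y => x * y) (ρ f - 1) (ρ g - 1) = (ρ (f * g) - 1) - (ρ f - 1) - (ρ g - 1) := by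
    simp only [map_mul]
    noncomm_ring
  have h1 : ρ (f * g) - 1 ∈ Submodule.span K {x | ∃ f ∈ F, x = ρ f - 1} :=
    Submodule.subset_span ⟨f * g, F.mul_mem hf hg, rfl⟩
  have h2 : ρ f - 1 ∈ Submodule.span K {x | ∃ f ∈ F, x = ρ f - 1} :=
    Submodule.subset_span ⟨f, hf, rfl⟩
  have h3 : ρ g - 1 ∈ Submodule.span K {x | ∃ f ∈ F, x = ρ f - 1} :=
    Submodule.subset_span ⟨g, hg, rfl⟩
  simp only [SetLike.mem_coe]
  convert Submodule.sub_mem _ (Submodule.sub_mem _ h1 h2) h3 using 1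

theorem aug_gen (ρ : G →* 𝔸) (F : Subgroup G) (S : Set G) (hS : Subgroup.closure S = F) :
    aug K ρ F ≤ Submodule.span K ((fun s => ρ s - 1) '' S) ⊔ aug K ρ F * aug K ρ F := by
  set D := Submodule.span K ((fun s => ρ s - 1) '' S) with hD
  set I := aug K ρ F with hI
  have hmemI : ∀ f ∈ F, ρ f - 1 ∈ I := fun f hf => Submodule.subset_span ⟨f, hf, rfl⟩
  have key : ∀ f ∈ F, ρ f - 1 ∈ D ⊔ I * I := by
    intro f hf
    rw [← hS] at hf
    induction hf using Subgroup.closure_induction with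
    | mem x hx => exact Submodule.mem_sup_left (Submodule.subset_span ⟨x, hx, rfl⟩)
    | one => simp
    | mul x y hx hy ihx ihy =>
      rw [hS] at hx hy
      have : ρ (x * y) - 1 = (ρ x - 1) + (ρ y - 1) + (ρ x - 1) * (ρ y - 1) := by
        rw [map_mul]; noncomm_ring
      rw [this]
      exact Submodule.add_mem _ (Submodule.add_mem _ ihx ihy)
        (Submodule.mem_sup_right (Submodule.mul_mem_mul (hmemI x hx) (hmemI y hy)))
    | inv x hx ih =>
      rw [hS] at hx
      have h1 : ρ x * ρ x⁻¹ = 1 := by rw [← map_mul]; simp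
      have : ρ x⁻¹ - 1 = - (ρ x - 1) - (ρ x - 1) * (ρ x⁻¹ - 1) := by
        rw [sub_mul, mul_sub, h1]; noncomm_ring
      rw [this]
      exact Submodule.sub_mem _ (Submodule.neg_mem _ ih)
        (Submodule.mem_sup_right (Submodule.mul_mem_mul (hmemI x hx) (hmemI _ (F.inv_mem hx))))
  rw [hI]
  unfold aug
  rw [Submodule.span_le]
  rintro _ ⟨f, hf, rfl⟩
  exact key f hf

theorem aug_fg [IsNoetherianRing K] (ρ : G →* 𝔸) (F : Subgroup G) (hF : F.FG) (c : ℕ)
    (hc : (aug K ρ F) ^ (c + 1) = ⊥) : (aug K ρ F).FG := by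
  obtain ⟨S, hS⟩ := hF
  set D := Submodule.span K ((fun s => ρ s - 1) '' (S : Set G)) with hD
  set I := aug K ρ F with hI
  have hDfg : D.FG := by
    classical
    refine ⟨S.image (fun s => ρ s - 1), ?_⟩
    simp [hD]
  have hDI : D ≤ I := by
    rw [hD, Submodule.span_le]
    rintro _ ⟨s, hs, rfl⟩
    refine Submodule.subset_span ⟨s, ?_, rfl⟩
    rw [← hS]
    exact Subgroup.subset_closure hs
  have hgen : I ≤ D ⊔ I * I := aug_gen ρ F S hS
  have hpow : ∀ k, I ^ (k + 1) ≤ D ^ (k + 1) ⊔ I ^ (k + 2) := by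
    intro k
    induction k with
    | zero => simpa [pow_two] using hgen
    | succ k ih =>
      have h1 : I ^ (k + 1 + 1) ≤ D ^ (k + 1) * I ⊔ I ^ (k + 3) := by
        rw [pow_succ I (k + 1)]
        refine (mul_le_mul' ih (le_refl I)).trans ?_
        rw [Submodule.sup_mul]
        rw [← pow_succ I (k + 2)]
      have h2 : D ^ (k + 1) * I ≤ D ^ (k + 1 + 1) ⊔ I ^ (k + 3) := by
        refine (mul_le_mul' (le_refl (D ^ (k + 1))) hgen).trans ?_
        rw [Submodule.mul_sup, ← pow_succ]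
        refine sup_le_sup le_rfl ?_
        have : D ^ (k + 1) ≤ I ^ (k + 1) := pow_le_pow_left' hDI _
        refine (mul_le_mul' this (le_refl (I * I))).trans ?_
        rw [← pow_two, ← pow_add]
      exact h1.trans (sup_le h2 le_sup_right)
  have hall : ∀ k, ∃ E : Submodule K 𝔸, E.FG ∧ I ≤ E ⊔ I ^ (k + 1) := by
    intro k
    induction k with
    | zero => exact ⟨⊥, Submodule.fg_bot, by simp⟩
    | succ k ih =>
      obtain ⟨E, hE, hIE⟩ := ih
      refine ⟨E ⊔ D ^ (k + 1), hE.sup (hDfg.pow _), ?_⟩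
      refine hIE.trans (sup_le (le_sup_left.trans le_sup_left) ((hpow k).trans ?_))
      exact sup_le (le_sup_right.trans le_sup_left) le_sup_right
  obtain ⟨E, hE, hIE⟩ := hall c
  rw [hc, sup_bot_eq] at hIE
  have : IsNoetherian K E := isNoetherian_of_fg_of_noetherian E hE
  exact (isNoetherian_submodule (N := E)).1 this I hIE

end fin

/-- An affine realisation of `G` with form `B` and translation lattice `L`. -/
structure Rel {G : Type*} [Group G] {ι : Type*} [Fintype ι]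
    (B : (ι → ℝ) →ₗ[ℝ] (ι → ℝ) →ₗ[ℝ] ℝ) (L : Subgroup G) where
  A : G →* Module.End ℝ (ι → ℝ)
  b : G → (ι → ℝ)
  cocycle : ∀ g h, b (g * h) = b g + A g (b h)
  mem : ∀ g, g ∈ L ↔ A g = 1
  inj : ∀ g, A g = 1 → b g = 0 → g = 1
  form : ∀ g v w, B (A g v) (A g w) = B v w
  e : Module.Basis ι ℝ (ι → ℝ)
  lat : ∀ v, (∃ g ∈ L, b g = v) ↔ v ∈ Submodule.span ℤ (Set.range e)

namespace Rel

variable {G : Type*} [Group G] {ι : Type*} [Fintype ι]
    {B : (ι → ℝ) →ₗ[ℝ] (ι → ℝ) →ₗ[ℝ] ℝ} {L : Subgroup G} (R : Rel B L)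
include R

theorem b_one : R.b 1 = 0 := by
  have := R.cocycle 1 1
  simpa using this

theorem A_inv (g : G) (v : ι → ℝ) : R.A g⁻¹ (R.A g v) = v := by
  rw [← Module.End.mul_apply, ← map_mul]; simp

theorem A_inv' (g : G) (v : ι → ℝ) : R.A g (R.A g⁻¹ v) = v := by
  rw [← Module.End.mul_apply, ← map_mul]; simp

theorem b_inv (g : G) : R.b g⁻¹ = - R.A g⁻¹ (R.b g) := by
  have := R.cocycle g⁻¹ g
  rw [inv_mul_cancel, R.b_one] at this
  exact (neg_eq_of_add_eq_zero_left this.symm).symm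

theorem b_inv_mem {g : G} (hg : g ∈ L) : R.b g⁻¹ = - R.b g := by
  rw [R.b_inv, (R.mem _).1 (L.inv_mem hg)]
  rfl

theorem b_mul_mem {g : G} (hg : g ∈ L) (h : G) : R.b (g * h) = R.b g + R.b h := by
  rw [R.cocycle, (R.mem _).1 hg]
  rfl

theorem normal : L.Normal := by
  constructor
  intro n hn g
  rw [R.mem] at hn ⊢
  rw [map_mul, map_mul, hn, mul_one, ← map_mul]
  simp

theorem eq_of {x y : G} (hx : x ∈ L) (hy : y ∈ L) (h : R.b x = R.b y) : x = y := by
  have h1 : x * y⁻¹ = 1 := by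
    apply R.inj
    · exact (R.mem _).1 (L.mul_mem hx (L.inv_mem hy))
    · rw [R.b_mul_mem hx, R.b_inv_mem hy, h, add_neg_cancel]
  exact mul_inv_eq_one.1 h1

theorem comm {g h : G} (hg : g ∈ L) (hh : h ∈ L) : g * h = h * g := by
  apply R.eq_of (L.mul_mem hg hh) (L.mul_mem hh hg)
  rw [R.b_mul_mem hg, R.b_mul_mem hh, add_comm]

theorem ext_zero (T : Module.End ℝ (ι → ℝ)) (h : ∀ g ∈ L, T (R.b g) = 0) : T = 0 := by
  apply R.e.ext
  intro k
  obtain ⟨g, hg, hgk⟩ := (R.lat (R.e k)).2 (Submodule.subset_span ⟨k, rfl⟩)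
  rw [← hgk, h g hg]
  rfl

theorem conj (h : G) {k : G} (hk : k ∈ L) : R.b (h * k * h⁻¹) = R.A h (R.b k) := by
  rw [R.cocycle, R.cocycle, map_mul, (R.mem _).1 hk, mul_one, R.b_inv, map_neg, R.A_inv']
  abel

theorem comm_b (h : G) {k : G} (hk : k ∈ L) :
    R.b (h * k * h⁻¹ * k⁻¹) = R.A h (R.b k) - R.b k := by
  have h1 : h * k * h⁻¹ ∈ L := R.normal.conj_mem k hk h
  rw [R.b_mul_mem h1, R.b_inv_mem hk, R.conj h hk, sub_eq_add_neg]

/-- two commuting elements of another normal abelian subgroup act quadratically -/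
theorem quad (L' : Subgroup G) (hn : L'.Normal) (hc : ∀ g ∈ L', ∀ h ∈ L', g * h = h * g)
    {g h : G} (hg : g ∈ L') (hh : h ∈ L') (v : ι → ℝ) :
    (R.A g - 1) ((R.A h - 1) v) = 0 := by
  have : (R.A g - 1) * (R.A h - 1) = 0 := by
    apply R.ext_zero
    intro k hk
    have h1 : h * k * h⁻¹ * k⁻¹ ∈ L :=
      L.mul_mem (R.normal.conj_mem k hk h) (L.inv_mem hk)
    have h2 : h * k * h⁻¹ * k⁻¹ ∈ L' := by
      have : h * k * h⁻¹ * k⁻¹ = h * (k * h⁻¹ * k⁻¹) := by group
      rw [this]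
      exact L'.mul_mem hh (hn.conj_mem _ (L'.inv_mem hh) k)
    set m := h * k * h⁻¹ * k⁻¹ with hm
    have h3 : (R.A h - 1) (R.b k) = R.b m := by
      rw [hm, R.comm_b h hk]; simp
    have h4 : (R.A g - 1) (R.b m) = 0 := by
      have h5 := R.comm_b g h1
      have h6 : g * m * g⁻¹ * m⁻¹ = 1 := by
        rw [hc g hg m h2]; group
      rw [h6, R.b_one] at h5
      simpa using h5.symm
    rw [Module.End.mul_apply, h3, h4]
  have h2 := LinearMap.congr_fun this v
  simpa using h2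

/-- the logarithmic translation part -/
noncomputable def tau (g : G) : ι → ℝ := (2 : ℝ) • R.b g - (1 / 2 : ℝ) • R.b (g ^ 2)

theorem tau_eq (g : G) : R.tau g = R.b g - (1 / 2 : ℝ) • (R.A g - 1) (R.b g) := by
  unfold tau
  rw [pow_two, R.cocycle]
  have : (R.A g - 1) (R.b g) = R.A g (R.b g) - R.b g := by simp
  rw [this]
  module

theorem tau_mem {g : G} (hg : g ∈ L) : R.tau g = R.b g := by
  rw [R.tau_eq, (R.mem g).1 hg]
  simp

theorem tau_comm (L' : Subgroup G) (hn : L'.Normal) (hc : ∀ g ∈ L', ∀ h ∈ L', g * h = h * g)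
    {g h : G} (hg : g ∈ L') (hh : h ∈ L') :
    (R.A g - 1) (R.tau h) = (R.A h - 1) (R.tau g) := by
  rw [R.tau_eq, R.tau_eq, map_sub, map_sub, map_smul, map_smul, R.quad L' hn hc hg hh,
    R.quad L' hn hc hh hg]
  have h1 := R.cocycle g h
  have h2 := R.cocycle h g
  rw [hc g hg h hh, h2] at h1
  have h3 : (R.A g - 1) (R.b h) = R.A g (R.b h) - R.b h := by simp
  have h4 : (R.A h - 1) (R.b g) = R.A h (R.b g) - R.b g := by simp
  rw [h3, h4, smul_zero, sub_zero, sub_zero]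
  linear_combination (exp := 1) -h1

theorem skew (L' : Subgroup G) (hn : L'.Normal)
    (hc : ∀ g ∈ L', ∀ h ∈ L', g * h = h * g) {g : G} (hg : g ∈ L') (v w : ι → ℝ) :
    B ((R.A g - 1) v) w = - B v ((R.A g - 1) w) := by
  have h1 := R.form g v ((2 : ℝ) • w - R.A g w)
  have h2 := R.quad L' hn hc hg hg w
  have h3 : R.A g ((2 : ℝ) • w - R.A g w) = w := by
    have h4 : R.A g (R.A g w) = (2 : ℝ) • R.A g w - w := by
      simp only [LinearMap.sub_apply, Module.End.one_apply, map_sub] at h2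
      have h5 : R.A g (R.A g w) = R.A g w + (R.A g w - w) := by
        rw [sub_eq_zero] at h2
        have h6 : R.A g (R.A g w) - R.A g w = R.A g w - w := h2
        rw [← h6]; abel
      rw [h5]; module
    rw [map_sub, map_smul, h4]; abel
  rw [h3] at h1
  simp only [LinearMap.sub_apply, Module.End.one_apply, map_sub, map_smul, smul_eq_mul] at h1 ⊢
  rw [h1]; ring

/-- Key lemma: if the logarithmic translation parts of elements of `L'` span, then `L' ≤ L`. -/
theorem key (hsymm : ∀ v w, B v w = B w v) (hnd : ∀ v, (∀ w, B v w = 0) → v = 0)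
    (L' : Subgroup G) (hn : L'.Normal)
    (hc : ∀ g ∈ L', ∀ h ∈ L', g * h = h * g) {κ : Type*} (s : κ → G) (hs : ∀ k, s k ∈ L')
    (hspan : Submodule.span ℝ (Set.range fun k => R.tau (s k)) = ⊤) : L' ≤ L := by
  have T1 : ∀ g ∈ L', ∀ h ∈ L', ∀ k, B ((R.A g - 1) (R.tau h)) (R.tau k)
      = B ((R.A h - 1) (R.tau g)) (R.tau k) := by
    intro g hg h hh k
    rw [R.tau_comm L' hn hc hg hh]
  have T2 : ∀ g ∈ L', ∀ h k, B ((R.A g - 1) (R.tau h)) (R.tau k)
      = - B ((R.A g - 1) (R.tau k)) (R.tau h) := by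
    intro g hg h k
    rw [R.skew L' hn hc hg, hsymm]
  have T0 : ∀ g ∈ L', ∀ h ∈ L', ∀ k ∈ L', B ((R.A g - 1) (R.tau h)) (R.tau k) = 0 := by
    intro g hg h hh k hk
    have e1 := T2 g hg h k
    have e2 := T1 g hg k hk h
    have e3 := T2 k hk g h
    have e4 := T1 k hk h hh g
    have e5 := T2 h hh k g
    have e6 := T1 h hh g hg k
    linarith
  intro g hg
  rw [R.mem, ← sub_eq_zero]
  have hzero : ∀ h ∈ L', (R.A g - 1) (R.tau h) = 0 := by
    intro h hh
    apply hnd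
    intro w
    have hw : w ∈ Submodule.span ℝ (Set.range fun k => R.tau (s k)) := by rw [hspan]; trivial
    induction hw using Submodule.span_induction with
    | mem x hx =>
      obtain ⟨k, rfl⟩ := hx
      exact T0 g hg h hh (s k) (hs k)
    | zero => simp
    | add x y _ _ hx hy => rw [map_add, hx, hy, add_zero]
    | smul c x _ hx => rw [map_smul, hx, smul_zero]
  apply LinearMap.ext
  intro w
  have hw : w ∈ Submodule.span ℝ (Set.range fun k => R.tau (s k)) := by rw [hspan]; trivial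
  induction hw using Submodule.span_induction with
  | mem x hx =>
    obtain ⟨k, rfl⟩ := hx
    rw [hzero (s k) (hs k)]; rfl
  | zero => simp
  | add x y _ _ hx hy => rw [map_add, hx, hy]; simp
  | smul c x _ hx => rw [map_smul, hx]; simp

/-- a lattice contained in another one is equal to it -/
theorem eq_of_le {L' : Subgroup G} (R' : Rel B L') (h : L' ≤ L) : L' = L := by
  apply le_antisymm h
  intro x hx
  rw [R'.mem, ← sub_eq_zero]
  apply R'.ext_zero
  intro g hg
  have h1 := R'.comm_b x hg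
  have h2 : x * g * x⁻¹ * g⁻¹ = 1 := by
    rw [R.comm hx (h hg)]; group
  rw [h2, R'.b_one] at h1
  simpa using h1.symm

end Rel

end Pool.Agent.W_MP_908eba_al
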